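import Pool.Agent.H50.ODG.Targets

/-!
# Row CGF: congruent polyhedra of class `{1, 2}`
-/

set_option autoImplicit false

namespace Pool.Agent.H55.ODG

open Pool.Agent.H57.CP Pool.Agent.H39.TO Pool.Agent.H39.OD Pool.Agent.H50.ODG

/-- `g` maps `K` onto `K'` -/
structure Mp (g : Equiv.Perm H3) (K K' : Geo) : Prop where
  iso : IsIso g
  v : ∀ x, g x ∈ K'.V ↔ x ∈ K.V
  e : ∀ e : Set H3, g '' e ∈ K'.E ↔ e ∈ K.E
  f : ∀ f : Set (Set H3), (Set.image g) '' f ∈ K'.F ↔ f ∈ K.F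

theorem im_inj (g : Equiv.Perm H3) : Function.Injective (Set.image g) :=
  Set.image_injective.mpr g.injective

theorem im_im_inj (g : Equiv.Perm H3) : Function.Injective (Set.image (Set.image g)) :=
  Set.image_injective.mpr (im_inj g)

theorem im_mul (g h : Equiv.Perm H3) (e : Set H3) : (g * h) '' e = g '' (h '' e) := by
  rw [Equiv.Perm.coe_mul, Set.image_comp]

theorem im_im_mul (g h : Equiv.Perm H3) (f : Set (Set H3)) :
    (Set.image (g * h)) '' f = (Set.image g) '' ((Set.image h) '' f) := by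
  have h1 : Set.image (g * h) = Set.image g ∘ Set.image h := by
    funext e
    exact im_mul g h e
  rw [h1, Set.image_comp]

theorem act_mul (g h : Equiv.Perm H3) (Φ : Fg) : act (g * h) Φ = act g (act h Φ) := by
  unfold act
  rw [im_mul, im_im_mul]
  rfl

theorem act_one (Φ : Fg) : act 1 Φ = Φ := by
  unfold act
  have h1 : Set.image (1 : Equiv.Perm H3) = id := by
    funext e
    simp
  rw [h1]
  simp

theorem iso_mul {g h : Equiv.Perm H3} (hg : IsIso g) (hh : IsIso h) : IsIso (g * h) := fun x y => by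
  show ch (g (h x)) (g (h y)) = ch x y
  rw [hg, hh]

theorem iso_inv {g : Equiv.Perm H3} (hg : IsIso g) : IsIso g⁻¹ := fun x y => by
  have := hg (g⁻¹ x) (g⁻¹ y)
  rw [← this]
  simp

theorem mp_of {g : Equiv.Perm H3} {K K' : Geo} (hg : IsIso g) (h : K' = mapG g K) : Mp g K K' := by
  subst h
  exact ⟨hg, fun x => g.injective.mem_set_image, fun e => (im_inj g).mem_set_image,
    fun f => (im_im_inj g).mem_set_image⟩

theorem mp_mul {g h : Equiv.Perm H3} {K K' : Geo} (hg : Mp g K K') (hh : Sy K' h) :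
    Mp (h * g) K K' := by
  refine ⟨iso_mul hh.iso hg.iso, fun x => ?_, fun e => ?_, fun f => ?_⟩
  · show h (g x) ∈ K'.V ↔ _
    rw [hh.v, hg.v]
  · rw [im_mul, hh.e, hg.e]
  · rw [im_im_mul, hh.f, hg.f]

theorem sy_conj {g s : Equiv.Perm H3} {K K' : Geo} (hg : Mp g K K') (hs : Sy K s) :
    Sy K' (g * s * g⁻¹) := by
  refine ⟨iso_mul (iso_mul hg.iso hs.iso) (iso_inv hg.iso), fun x => ?_, fun e => ?_, fun f => ?_⟩
  · show g (s (g⁻¹ x)) ∈ K'.V ↔ _
    rw [hg.v, hs.v, ← hg.v]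
    simp
  · rw [im_mul, im_mul, hg.e, hs.e, ← hg.e, ← im_mul]
    simp
  · rw [im_im_mul, im_im_mul, hg.f, hs.f, ← hg.f, ← im_im_mul]
    have h1 : Set.image ((g * g⁻¹ : Equiv.Perm H3)) = id := by
      funext e
      simp
    rw [h1, Set.image_id]

theorem fl_mp {g : Equiv.Perm H3} {K K' : Geo} (hg : Mp g K K') {Φ : Fg} (h : Fl K Φ) :
    Fl K' (act g Φ) :=
  ⟨Set.mem_image_of_mem _ h.1, Set.mem_image_of_mem _ h.2.1, (hg.f _).mpr h.2.2⟩

theorem a1_mp {g : Equiv.Perm H3} {K K' : Geo} (hg : Mp g K K') {Φ Ψ : Fg} (h : A1 K Φ Ψ) :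
    A1 K' (act g Φ) (act g Ψ) := by
  obtain ⟨h1, h2, h3, h4, h5⟩ := h
  refine ⟨fl_mp hg h1, fl_mp hg h2, ?_, ?_, ?_⟩
  · show g Φ.1 = g Ψ.1
    rw [h3]
  · show g '' Φ.2.1 ≠ g '' Ψ.2.1
    exact fun h => h4 (im_inj g h)
  · show (Set.image g) '' Φ.2.2 = (Set.image g) '' Ψ.2.2
    rw [h5]

theorem a2_mp {g : Equiv.Perm H3} {K K' : Geo} (hg : Mp g K K') {Φ Ψ : Fg} (h : A2 K Φ Ψ) :
    A2 K' (act g Φ) (act g Ψ) := by
  obtain ⟨h1, h2, h3, h4, h5⟩ := h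
  refine ⟨fl_mp hg h1, fl_mp hg h2, ?_, ?_, ?_⟩
  · show g Φ.1 = g Ψ.1
    rw [h3]
  · show g '' Φ.2.1 = g '' Ψ.2.1
    rw [h4]
  · show (Set.image g) '' Φ.2.2 ≠ (Set.image g) '' Ψ.2.2
    exact fun h => h5 (im_im_inj g h)

/-- symmetries which do the same to corresponding flags -/
theorem agree (hFLD : T_FLD) {g s s' : Equiv.Perm H3} {K K' : Geo} (hK' : IsGeo K')
    (hg : Mp g K K') (hs : Sy K s) (hs' : Sy K' s') {Φ Φ' : Fg} (hΦ : Fl K Φ)
    (hgΦ : act g Φ = Φ') (h : act g (act s Φ) = act s' Φ') :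
    ∀ y ∈ K.V, g (s y) = s' (g y) := by
  intro y hy
  have h1 : act (g * s * g⁻¹) Φ' = act s' Φ' := by
    rw [← h, ← hgΦ, act_mul, act_mul, ← act_mul g⁻¹ g, inv_mul_cancel, act_one]
  have h2 := hFLD K' hK' (g * s * g⁻¹) s' (sy_conj hg hs) hs' Φ' (hgΦ ▸ fl_mp hg hΦ) h1 (g y)
    ((hg.v y).mpr hy)
  have h3 : (g * s * g⁻¹) (g y) = g (s y) := by
    show g (s (g⁻¹ (g y))) = g (s y)
    simp
  rw [h3] at h2
  exact h2

theorem agree1 (hFLD : T_FLD) (hFLA : T_FLA) {g s s' : Equiv.Perm H3} {K K' : Geo}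
    (hK' : IsGeo K') (hg : Mp g K K') (hs : Sy K s) (hs' : Sy K' s') {Φ Φ' : Fg}
    (hgΦ : act g Φ = Φ') (h1 : A1 K Φ (act s Φ)) (h2 : A1 K' Φ' (act s' Φ')) :
    ∀ y ∈ K.V, g (s y) = s' (g y) := by
  refine agree hFLD hK' hg hs hs' h1.1 hgΦ ?_
  have h3 := a1_mp hg h1
  rw [hgΦ] at h3
  exact (hFLA K' hK' Φ' h2.1).2.1.unique h3 h2

theorem agree2 (hFLD : T_FLD) (hFLA : T_FLA) {g s s' : Equiv.Perm H3} {K K' : Geo}
    (hK' : IsGeo K') (hg : Mp g K K') (hs : Sy K s) (hs' : Sy K' s') {Φ Φ' : Fg}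
    (hgΦ : act g Φ = Φ') (h1 : A2 K Φ (act s Φ)) (h2 : A2 K' Φ' (act s' Φ')) :
    ∀ y ∈ K.V, g (s y) = s' (g y) := by
  refine agree hFLD hK' hg hs hs' h1.1 hgΦ ?_
  have h3 := a2_mp hg h1
  rw [hgΦ] at h3
  exact (hFLA K' hK' Φ' h2.1).2.2.unique h3 h2

theorem fc_im {a b g : Equiv.Perm H3} (hg : g ∈ Subgroup.closure {a, b}) (e : Set H3) :
    (Set.image g) '' fc a b e = fc a b e := by
  ext x
  constructor
  · rintro ⟨y, ⟨h, hh, rfl⟩, rfl⟩
    exact ⟨g * h, mul_mem hg hh, (im_mul g h e).symm⟩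
  · rintro ⟨h, hh, rfl⟩
    refine ⟨(g⁻¹ * h) '' e, ⟨g⁻¹ * h, mul_mem (inv_mem hg) hh, rfl⟩, ?_⟩
    rw [← im_mul]
    simp

theorem fc_self (a b : Equiv.Perm H3) (e : Set H3) : e ∈ fc a b e :=
  ⟨1, one_mem _, by simp⟩

theorem face_mem (v v' : H3) (a b c : Equiv.Perm H3) : fc a b {v, v'} ∈ (KA v v' a b c).F := by
  refine ⟨1, one_mem _, ?_⟩
  have h1 : Set.image (1 : Equiv.Perm H3) = id := by
    funext e
    simp
  rw [h1, Set.image_id]

theorem mem_a (a b c : Equiv.Perm H3) : a ∈ G3 a b c := Subgroup.subset_closure (by simp)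
theorem mem_b (a b c : Equiv.Perm H3) : b ∈ G3 a b c := Subgroup.subset_closure (by simp)
theorem mem_c (a b c : Equiv.Perm H3) : c ∈ G3 a b c := Subgroup.subset_closure (by simp)

/-- the adjacent flags of the two base flags -/
theorem adj (hAEA : T_AEA) (hAEC : T_AEC) (hFLB : T_FLB) {v v' : H3} {a b c : Equiv.Perm H3}
    (h : AStr v v' a b c) :
    A1 (KA v v' a b c) (v, {v, v'}, fc a b {v, v'}) (act a (v, {v, v'}, fc a b {v, v'})) ∧
    A1 (KA v v' a b c) (v', {v, v'}, fc a b {v, v'}) (act b (v', {v, v'}, fc a b {v, v'})) ∧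
    A2 (KA v v' a b c) (v, {v, v'}, fc a b {v, v'}) (act c (v, {v, v'}, fc a b {v, v'})) ∧
    A2 (KA v v' a b c) (v', {v, v'}, fc a b {v, v'}) (act c (v', {v, v'}, fc a b {v, v'})) := by
  obtain ⟨hne, -, -, -, ha, hb, hc, -⟩ := hAEA v v' a b c h
  have f1 : Fl (KA v v' a b c) (v, {v, v'}, fc a b {v, v'}) :=
    ⟨by simp, fc_self _ _ _, face_mem _ _ _ _ _⟩
  have f2 : Fl (KA v v' a b c) (v', {v, v'}, fc a b {v, v'}) :=
    ⟨by simp, fc_self _ _ _, face_mem _ _ _ _ _⟩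
  have sa := hAEC v v' a b c h a (mem_a _ _ _)
  have sb := hAEC v v' a b c h b (mem_b _ _ _)
  have sc := hAEC v v' a b c h c (mem_c _ _ _)
  have hfa : (Set.image a) '' fc a b {v, v'} = fc a b {v, v'} :=
    fc_im (Subgroup.subset_closure (by simp)) _
  have hfb : (Set.image b) '' fc a b {v, v'} = fc a b {v, v'} :=
    fc_im (Subgroup.subset_closure (by simp)) _
  have ec : c '' {v, v'} = {v, v'} := by
    rw [Set.image_pair, h.cv, h.cv']
  refine ⟨⟨f1, (hFLB _ a sa _ (v, {v, v'}, fc a b {v, v'})).1 f1, h.av.symm, ?_, hfa.symm⟩,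
    ⟨f2, (hFLB _ b sb _ (v, {v, v'}, fc a b {v, v'})).1 f2, h.bv'.symm, ?_, hfb.symm⟩,
    ⟨f1, (hFLB _ c sc _ (v, {v, v'}, fc a b {v, v'})).1 f1, h.cv.symm, ec.symm, hc⟩,
    ⟨f2, (hFLB _ c sc _ (v, {v, v'}, fc a b {v, v'})).1 f2, h.cv'.symm, ec.symm, hc⟩⟩
  · show ({v, v'} : Set H3) ≠ a '' {v, v'}
    rw [Set.image_pair, h.av]
    intro he
    have h1 : v' ∈ ({v, a v'} : Set H3) := he ▸ (by simp)
    rcases h1 with h1 | h1
    · exact hne h1.symm
    · exact ha h1.symm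
  · show ({v, v'} : Set H3) ≠ b '' {v, v'}
    rw [Set.image_pair, h.bv']
    intro he
    have h1 : v ∈ ({b v, v'} : Set H3) := he ▸ (by simp)
    rcases h1 with h1 | h1
    · exact hb h1.symm
    · exact hne h1

theorem pf_CGF (hAEA : T_AEA) (hAEB : T_AEB) (hAEC : T_AEC) (hAED : T_AED) (hFLD : T_FLD)
    (hFLA : T_FLA) (hFLB : T_FLB) (hSYG : T_SYG) : T_CGF := by
  intro v v' a b c w w' a' b' c' hA hB ⟨g₀, hg₀, hK⟩
  obtain ⟨A1a, A1b, A2v, A2v'⟩ := adj hAEA hAEC hFLB hA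
  obtain ⟨B1a, B1b, B2w, B2w'⟩ := adj hAEA hAEC hFLB hB
  have hne : v ≠ v' := (hAEA v v' a b c hA).1
  have hK' : IsGeo (KA w w' a' b' c') := hAEB w w' a' b' c' hB
  have m₀ : Mp g₀ (KA v v' a b c) (KA w w' a' b' c') := mp_of hg₀ hK
  have sa := hAEC v v' a b c hA a (mem_a _ _ _)
  have sb := hAEC v v' a b c hA b (mem_b _ _ _)
  have sc := hAEC v v' a b c hA c (mem_c _ _ _)
  have sa' := hAEC w w' a' b' c' hB a' (mem_a _ _ _)
  have sb' := hAEC w w' a' b' c' hB b' (mem_b _ _ _)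
  have sc' := hAEC w w' a' b' c' hB c' (mem_c _ _ _)
  obtain ⟨h, hh, hcase⟩ := hAED w w' a' b' c' hB (act g₀ (v, {v, v'}, fc a b {v, v'}))
    (fl_mp m₀ A1a.1)
  have sh : Sy (KA w w' a' b' c') h⁻¹ :=
    (hSYG (KA w w' a' b' c')).2.2.1 h (hAEC w w' a' b' c' hB h hh)
  have m : Mp (h⁻¹ * g₀) (KA v v' a b c) (KA w w' a' b' c') := mp_mul m₀ sh
  refine ⟨h⁻¹ * g₀, m.iso, ?_⟩
  set g : Equiv.Perm H3 := h⁻¹ * g₀ with hgdef
  rcases hcase with h1 | h1
  · have h2 : act g (v, {v, v'}, fc a b {v, v'}) = (w, {w, w'}, fc a' b' {w, w'}) := by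
      rw [hgdef, act_mul, h1, ← act_mul, inv_mul_cancel, act_one]
    have gv : g v = w := congrArg Prod.fst h2
    have ge : g '' {v, v'} = {w, w'} := congrArg (fun Φ : Fg => Φ.2.1) h2
    have gf : (Set.image g) '' fc a b {v, v'} = fc a' b' {w, w'} :=
      congrArg (fun Φ : Fg => Φ.2.2) h2
    have gv' : g v' = w' := by
      have h3 : g v' ∈ ({w, w'} : Set H3) := ge ▸ Set.mem_image_of_mem _ (by simp)
      rcases h3 with h3 | h3
      · exact absurd (g.injective (gv.trans h3.symm)) hne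
      · exact h3
    have h3 : act g (v', {v, v'}, fc a b {v, v'}) = (w', {w, w'}, fc a' b' {w, w'}) := by
      unfold act
      simp only [gv', ge, gf]
    exact Or.inl ⟨gv, gv', fun y hy => ⟨agree1 hFLD hFLA hK' m sa sa' h2 A1a B1a y hy,
      agree1 hFLD hFLA hK' m sb sb' h3 A1b B1b y hy,
      agree2 hFLD hFLA hK' m sc sc' h2 A2v B2w y hy⟩⟩
  · have h2 : act g (v, {v, v'}, fc a b {v, v'}) = (w', {w, w'}, fc a' b' {w, w'}) := by
      rw [hgdef, act_mul, h1, ← act_mul, inv_mul_cancel, act_one]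
    have gv : g v = w' := congrArg Prod.fst h2
    have ge : g '' {v, v'} = {w, w'} := congrArg (fun Φ : Fg => Φ.2.1) h2
    have gf : (Set.image g) '' fc a b {v, v'} = fc a' b' {w, w'} :=
      congrArg (fun Φ : Fg => Φ.2.2) h2
    have gv' : g v' = w := by
      have h3 : g v' ∈ ({w, w'} : Set H3) := ge ▸ Set.mem_image_of_mem _ (by simp)
      rcases h3 with h3 | h3
      · exact h3
      · exact absurd (g.injective (gv.trans h3.symm)) hne
    have h3 : act g (v', {v, v'}, fc a b {v, v'}) = (w, {w, w'}, fc a' b' {w, w'}) := by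
      unfold act
      simp only [gv', ge, gf]
    exact Or.inr ⟨gv, gv', fun y hy => ⟨agree1 hFLD hFLA hK' m sa sb' h2 A1a B1b y hy,
      agree1 hFLD hFLA hK' m sb sa' h3 A1b B1a y hy,
      agree2 hFLD hFLA hK' m sc sc' h2 A2v B2w' y hy⟩⟩

end Pool.Agent.H55.ODG
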